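import Pool.Agent.Lib.MP_79a327_al.Inst

set_option autoImplicit false

namespace Pool.Agent.Results.MP_79a327_al.DerivedLengthThree

/-- A *partial order* on a group `G` in the sense of the question: a partial order on the set
`G` that is invariant under multiplication on both sides. -/
structure GroupPartialOrder {G : Type*} [Group G] (le : G → G → Prop) : Prop where
  refl : ∀ a, le a a
  antisymm : ∀ a b, le a b → le b a → a = b
  trans : ∀ a b c, le a b → le b c → le a c
  invariant : ∀ a b x y, le a b → le (x * a * y) (x * b * y)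

/-- A *total order* on a group: a partial order that is linear. -/
def GroupTotalOrder {G : Type*} [Group G] (le : G → G → Prop) : Prop :=
  GroupPartialOrder le ∧ ∀ a b, le a b ∨ le b a

/-- `G` is *orderable* if it admits a total order. -/
def Orderable (G : Type*) [Group G] : Prop := ∃ le : G → G → Prop, GroupTotalOrder le

/-- `le'` *extends* `le`. -/
def Extends {G : Type*} (le' le : G → G → Prop) : Prop := ∀ a b, le a b → le' a b

/-- `O*`-groups: every partial order extends to a total order. -/
def OStar (G : Type*) [Group G] : Prop :=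
  ∀ le : G → G → Prop, GroupPartialOrder le →
    ∃ le' : G → G → Prop, GroupTotalOrder le' ∧ Extends le' le

/-- *Weakly abelian*: `x⁻¹ g x ≤ g²` for all `g ≥ e` and all `x`. -/
def WeaklyAbelian {G : Type*} [Group G] (le : G → G → Prop) : Prop :=
  ∀ g x : G, le 1 g → le (x⁻¹ * g * x) (g ^ 2)

/-- The class `W*`: orderable groups in which every weakly abelian partial order extends to a
weakly abelian total order. -/
def WeakStar (G : Type*) [Group G] : Prop :=
  Orderable G ∧ ∀ le : G → G → Prop, GroupPartialOrder le → WeaklyAbelian le →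
    ∃ le' : G → G → Prop, GroupTotalOrder le' ∧ WeaklyAbelian le' ∧ Extends le' le

open Pool.Agent.Lib.MP_79a327_al

/-- The relation of a cone. -/
def rel {G : Type*} [Group G] (P : Set G) (a b : G) : Prop := a⁻¹ * b ∈ P

theorem rel_po {G : Type*} [Group G] {P : Set G} (h : PO P) : GroupPartialOrder (rel P) := by
  refine ⟨fun a => ?_, fun a b hab hba => ?_, fun a b c hab hbc => ?_, fun a b x y hab => ?_⟩
  · show a⁻¹ * a ∈ P
    rw [inv_mul_cancel]; exact h.one
  · have h1 : a⁻¹ * b = 1 := h.pt _ hab (by
      have e : (a⁻¹ * b)⁻¹ = b⁻¹ * a := by group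
      rw [e]; exact hba)
    exact inv_mul_eq_one.1 h1
  · show a⁻¹ * c ∈ P
    have e : a⁻¹ * c = (a⁻¹ * b) * (b⁻¹ * c) := by group
    rw [e]; exact h.mul _ hab _ hbc
  · show (x * a * y)⁻¹ * (x * b * y) ∈ P
    have e : (x * a * y)⁻¹ * (x * b * y) = y⁻¹ * (a⁻¹ * b) * y := by group
    rw [e]; exact h.conj _ hab y

theorem po_cone {G : Type*} [Group G] {le : G → G → Prop} (h : GroupPartialOrder le) :
    PO {g | le 1 g} := by
  refine ⟨h.refl 1, fun a ha b hb => ?_, fun a ha hb => ?_, fun a ha x => ?_⟩
  · show le 1 (a * b)
    have h1 := h.invariant 1 b a 1 hb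
    rw [mul_one, mul_one, mul_one] at h1
    exact h.trans _ _ _ ha h1
  · have h1 := h.invariant 1 a⁻¹ a 1 hb
    rw [mul_one, mul_one, mul_one, mul_inv_cancel] at h1
    exact h.antisymm _ _ h1 ha
  · show le 1 (x⁻¹ * a * x)
    have h1 := h.invariant 1 a x⁻¹ x ha
    rw [mul_one, inv_mul_cancel] at h1
    exact h1

theorem le_of_cone {G : Type*} [Group G] {le : G → G → Prop} (h : GroupPartialOrder le) {a b : G}
    (hab : le a b) : le 1 (a⁻¹ * b) := by
  have h1 := h.invariant a b a⁻¹ 1 hab
  rwa [inv_mul_cancel, mul_one, mul_one] at h1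

theorem rel_total {G : Type*} [Group G] {P : Set G} (h : Tot P) (a b : G) :
    rel P a b ∨ rel P b a := by
  rcases h (a⁻¹ * b) with h1 | h1
  · exact Or.inl h1
  · right
    have e : (a⁻¹ * b)⁻¹ = b⁻¹ * a := by group
    rw [e] at h1; exact h1

theorem derivedSeries_semidirect {N H : Type*} [CommGroup N] [Group H] (φ : H →* MulAut N) (n : ℕ)
    (h : derivedSeries H n = ⊥) : derivedSeries (N ⋊[φ] H) (n + 1) = ⊥ := by
  have h1 : derivedSeries (N ⋊[φ] H) n ≤ (SemidirectProduct.inl (φ := φ)).range := by
    rw [SemidirectProduct.range_inl_eq_ker_rightHom]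
    intro g hg
    rw [MonoidHom.mem_ker]
    have h2 := map_derivedSeries_le_derivedSeries (SemidirectProduct.rightHom (φ := φ)) n
      (Subgroup.mem_map_of_mem _ hg)
    rw [h, Subgroup.mem_bot] at h2
    exact h2
  rw [derivedSeries_succ, eq_bot_iff]
  refine le_trans (Subgroup.commutator_mono h1 h1) ?_
  rw [← eq_bot_iff, Subgroup.commutator_eq_bot_iff_le_centralizer]
  rintro _ ⟨a, rfl⟩
  rw [Subgroup.mem_centralizer_iff]
  rintro _ ⟨b, rfl⟩
  rw [← map_mul, ← map_mul, mul_comm]

theorem derivedSeries_theGroup : derivedSeries TheGroup 3 = ⊥ := by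
  apply derivedSeries_semidirect
  apply derivedSeries_semidirect
  rw [derivedSeries_one, commutator_eq_bot_iff_center_eq_top]
  exact CommGroup.center_eq_top

theorem countable_RR : Countable RR := by
  have h := MvPolynomial.cardinalMk_le_max (σ := Fin 3) (R := ℚ)
  rw [← Cardinal.mk_le_aleph0_iff]
  refine h.trans ?_
  simp

theorem countable_frac : Countable (FractionRing RR) := by
  have := countable_RR
  exact (IsLocalization.mk'_surjective (nonZeroDivisors RR) (S := FractionRing RR)).countable

theorem countable_semidirect {N H : Type*} [Group N] [Group H] (φ : H →* MulAut N)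
    [Countable N] [Countable H] : Countable (N ⋊[φ] H) := by
  refine Function.Injective.countable (β := N × H) (f := fun x => (x.left, x.right)) ?_
  intro x y h
  exact SemidirectProduct.ext (congrArg Prod.fst h) (congrArg Prod.snd h)

theorem countable_theGroup : Countable TheGroup := by
  have h0 := countable_frac
  have : Countable (FractionRing RR)ˣ := Units.val_injective.countable
  have : Countable (Multiplicative (FractionRing RR)) := h0
  have : Countable (Multiplicative ℤ) := inferInstanceAs (Countable ℤ)
  have : Countable (HG dat.σ) := countable_semidirect _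
  exact countable_semidirect _

/-- **The classes differ already among countable soluble groups of derived length three.**
There is a countable group `G` with trivial third derived subgroup which is in `W*` but is not
an `O*`-group. -/
theorem result : ∃ (G : Type) (_ : Group G),
    Countable G ∧ derivedSeries G 3 = ⊥ ∧ WeakStar G ∧ ¬ OStar G := by
  refine ⟨TheGroup, inferInstance, countable_theGroup, derivedSeries_theGroup, ⟨?_, ?_⟩, ?_⟩
  · obtain ⟨Q, _, hQ, _, hT⟩ := theGroup_wstar {1} ⟨rfl, by
        rintro a ha b hb
        rw [Set.mem_singleton_iff] at *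
        rw [ha, hb, one_mul], by
        intro a ha _
        exact ha, by
        intro a ha x
        rw [Set.mem_singleton_iff] at *
        rw [ha, mul_one, inv_mul_cancel]⟩ (by
        intro a ha x
        rw [Set.mem_singleton_iff] at *
        rw [ha]; group)
    exact ⟨rel Q, rel_po hQ, rel_total hT⟩
  · intro le hle hW
    obtain ⟨Q, hPQ, hQ, hWQ, hT⟩ := theGroup_wstar {g | le 1 g} (po_cone hle) (by
      intro a ha x
      exact le_of_cone hle (hW a x ha))
    refine ⟨rel Q, ⟨rel_po hQ, rel_total hT⟩, ?_, fun a b hab => hPQ (le_of_cone hle hab)⟩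
    intro g x hg
    have hg' : g ∈ Q := by
      have : (1 : TheGroup)⁻¹ * g ∈ Q := hg
      rwa [inv_one, one_mul] at this
    exact hWQ g hg' x
  · intro h
    obtain ⟨le', ⟨hpo, htot⟩, hext⟩ := h (rel dat.bad) (rel_po dat.bad_PO)
    refine dat.bad_ext {g | le' 1 g} (fun g hg => ?_) (po_cone hpo) (fun g => ?_)
    · exact hext 1 g (by
        show (1 : TheGroup)⁻¹ * g ∈ dat.bad
        rwa [inv_one, one_mul])
    · rcases htot 1 g with h1 | h1
      · exact Or.inl h1
      · right
        have h2 := le_of_cone hpo h1
        rwa [mul_one] at h2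

end Pool.Agent.Results.MP_79a327_al.DerivedLengthThree
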